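import Pool.Agent.Q295.PN.StmK
import Pool.Agent.W154.LP.Chern

/-!
Lemma job PN-K2 (project PN of helper295).  Adapted from `Pool/Agent/W154/LP/Chern.lean`.
-/

set_option autoImplicit false

namespace Pool.Agent.Q130.PN

open MeasureTheory ProbabilityTheory Pool.Agent.W533.LP

theorem geo_boundS (a θ : ℝ) (ha : 0 ≤ a) (ha1 : a ≤ 1 / 2) (hθ : |θ| ≤ 1 / 4) :
    a * Real.exp θ < 1 ∧ (1 - a) / (1 - a * Real.exp θ) ≤
      Real.exp (mean a * θ + 18 * a * θ ^ 2) := by
  have hm0 : 0 ≤ mean a := div_nonneg ha (by linarith)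
  have hm2 : mean a ≤ 2 * a := by
    unfold mean
    rw [div_le_iff₀ (by linarith)]
    nlinarith
  have hm1 : mean a ≤ 1 := by linarith
  have hθ1 : |θ| ≤ 1 := by linarith
  have h1 := Real.abs_exp_sub_one_sub_id_le hθ1
  have h2 := Real.abs_exp_sub_one_le hθ1
  set e := Real.exp θ - 1 with he
  set u := mean a * e with hu
  have hue : |u| ≤ 2 * (mean a * |θ|) := by
    rw [hu, abs_mul, abs_of_nonneg hm0]
    nlinarith
  have hu1 : |u| ≤ 1 / 2 := by
    have : mean a * |θ| ≤ 1 * |θ| := mul_le_mul_of_nonneg_right hm1 (abs_nonneg _)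
    linarith
  have hu2 : u ≤ 1 / 2 := (abs_le.1 hu1).2
  have hma : mean a * (1 - a) = a := by
    unfold mean
    exact div_mul_cancel₀ a (by linarith)
  have hden : 1 - a * Real.exp θ = (1 - a) * (1 - u) := by
    have : Real.exp θ = 1 + e := by rw [he]; ring
    rw [this, hu]
    linear_combination e * hma
  have h1a : 0 < 1 - a := by linarith
  have h1u : 0 < 1 - u := by linarith
  refine ⟨?_, ?_⟩
  · have : 0 < 1 - a * Real.exp θ := by rw [hden]; positivity
    linarith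
  · rw [hden, div_mul_eq_div_div, div_self h1a.ne', div_le_iff₀ h1u]
    have hexp : 1 + (u + 2 * u ^ 2) ≤ Real.exp (mean a * θ + 18 * a * θ ^ 2) := by
      have hle : u + 2 * u ^ 2 ≤ mean a * θ + 18 * a * θ ^ 2 := by
        have i1 : e ≤ θ + θ ^ 2 := by
          have := (abs_le.1 h1).2
          rw [he]; linarith
        have i2 : u ≤ mean a * θ + mean a * θ ^ 2 := by
          rw [hu, ← mul_add]
          exact mul_le_mul_of_nonneg_left i1 hm0
        have i3 : u ^ 2 ≤ 4 * (mean a) ^ 2 * θ ^ 2 := by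
          have := sq_le_sq' (by linarith [abs_nonneg u, neg_abs_le u]) (le_trans (le_abs_self u) hue)
          have e4 : (2 * (mean a * |θ|)) ^ 2 = 4 * (mean a) ^ 2 * θ ^ 2 := by
            rw [mul_pow, mul_pow, sq_abs]; ring
          rwa [e4] at this
        have i4 : mean a * θ ^ 2 ≤ 2 * a * θ ^ 2 :=
          mul_le_mul_of_nonneg_right hm2 (sq_nonneg _)
        have i5 : (mean a) ^ 2 * θ ^ 2 ≤ 2 * a * θ ^ 2 := by
          refine mul_le_mul_of_nonneg_right ?_ (sq_nonneg _)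
          nlinarith
        nlinarith
      calc 1 + (u + 2 * u ^ 2) ≤ 1 + (mean a * θ + 18 * a * θ ^ 2) := by linarith
        _ ≤ _ := by
          have := Real.add_one_le_exp (mean a * θ + 18 * a * θ ^ 2)
          linarith
    have hkey : 1 ≤ (1 + (u + 2 * u ^ 2)) * (1 - u) := by
      have : (1 + (u + 2 * u ^ 2)) * (1 - u) = 1 + u ^ 2 * (1 - 2 * u) := by ring
      rw [this]
      have : 0 ≤ u ^ 2 * (1 - 2 * u) := mul_nonneg (sq_nonneg _) (by linarith)
      linarith
    exact hkey.trans (mul_le_mul_of_nonneg_right hexp h1u.le)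

theorem k2 : Pool.Agent.Q295.PN.S_K2 := by
  refine ⟨1 / 72, by positivity, ?_⟩
  intro Ω _ μ a lam x n X ha ha1 hlam hnl hx hxl hF
  have := hF.prob
  set t := x / (36 * lam) with ht
  have ht0 : 0 ≤ t := by positivity
  have ht1 : t ≤ 1 / 4 := by
    rw [ht, div_le_iff₀ (by positivity)]
    linarith
  have habs : ∀ s : ℝ, (s = t ∨ s = -t) → |s| ≤ 1 / 4 := by
    rintro s (rfl | rfl)
    · rwa [abs_of_nonneg ht0]
    · rwa [abs_neg, abs_of_nonneg ht0]
  set Y : Fin n → Ω → ℝ := fun i ω => (X i ω : ℝ) with hY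
  have hYm : ∀ i, Measurable (Y i) := by
    intro i
    have h1 : Measurable (fun k : ℕ => (k : ℝ)) := measurable_from_top
    exact h1.comp (hF.meas i)
  have hYi : iIndepFun Y μ :=
    hF.indep.comp (fun _ (k : ℕ) => (k : ℝ)) (fun _ => measurable_from_top)
  have hgeo : ∀ s : ℝ, (s = t ∨ s = -t) → ∀ i,
      Integrable (fun ω => Real.exp (s * Y i ω)) μ ∧
        mgf (Y i) μ s ≤ Real.exp (mean a * s + 18 * a * s ^ 2) := by
    intro s hs i
    obtain ⟨hb1, hb2⟩ := geo_boundS a s ha ha1 (habs s hs)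
    obtain ⟨hg1, hg2⟩ := Pool.Agent.W154.LP.geo_exp μ (X i) (hF.meas i) a s ha (by linarith)
      (hF.law i) hb1
    refine ⟨hg1, ?_⟩
    unfold mgf
    rw [hY]
    simp only
    rw [hg2]
    exact hb2
  have hsum : ∀ s : ℝ, (s = t ∨ s = -t) →
      Integrable (fun ω => Real.exp (s * (∑ i, Y i) ω)) μ ∧
        mgf (∑ i, Y i) μ s ≤ Real.exp (n * (mean a * s + 18 * a * s ^ 2)) := by
    intro s hs
    refine ⟨hYi.integrable_exp_mul_sum hYm (fun i _ => (hgeo s hs i).1), ?_⟩
    rw [hYi.mgf_sum hYm]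
    calc ∏ i, mgf (Y i) μ s ≤ ∏ _i : Fin n, Real.exp (mean a * s + 18 * a * s ^ 2) :=
          Finset.prod_le_prod (fun i _ => mgf_nonneg) (fun i _ => (hgeo s hs i).2)
      _ = _ := by
          rw [Finset.prod_const, Finset.card_univ, Fintype.card_fin, ← Real.exp_nat_mul]
  have hfin : -(t * x) + n * (18 * a * t ^ 2) ≤ -(1 / 72) * x ^ 2 / lam := by
    have e1 : n * (18 * a * t ^ 2) ≤ 18 * lam * t ^ 2 := by
      have := mul_le_mul_of_nonneg_right hnl (sq_nonneg t)
      nlinarith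
    have e2 : -(t * x) + 18 * lam * t ^ 2 = -(1 / 72) * x ^ 2 / lam := by
      rw [ht]
      field_simp
      ring
    linarith
  refine ⟨?_, ?_⟩
  · have h1 := measure_ge_le_exp_mul_mgf (μ := μ) (X := ∑ i, Y i) (n * mean a + x) ht0
      (hsum t (Or.inl rfl)).1
    have e1 : {ω | (n : ℝ) * mean a + x ≤ ∑ i, (X i ω : ℝ)} =
        {ω | (n : ℝ) * mean a + x ≤ (∑ i, Y i) ω} := by
      ext ω
      simp [hY, Finset.sum_apply]
    rw [e1]
    refine h1.trans ?_
    refine (mul_le_mul_of_nonneg_left (hsum t (Or.inl rfl)).2 (Real.exp_pos _).le).trans ?_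
    rw [← Real.exp_add, Real.exp_le_exp]
    refine le_trans (le_of_eq ?_) hfin
    ring
  · have h1 := measure_le_le_exp_mul_mgf (μ := μ) (X := ∑ i, Y i) (n * mean a - x)
      (neg_nonpos.2 ht0) (hsum (-t) (Or.inr rfl)).1
    have e1 : {ω | ∑ i, (X i ω : ℝ) ≤ (n : ℝ) * mean a - x} =
        {ω | (∑ i, Y i) ω ≤ (n : ℝ) * mean a - x} := by
      ext ω
      simp [hY, Finset.sum_apply]
    rw [e1]
    refine h1.trans ?_
    refine (mul_le_mul_of_nonneg_left (hsum (-t) (Or.inr rfl)).2 (Real.exp_pos _).le).trans ?_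
    rw [← Real.exp_add, Real.exp_le_exp]
    refine le_trans (le_of_eq ?_) hfin
    ring

end Pool.Agent.Q130.PN
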