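import Pool.Agent.Q295.PN.StmK
import Pool.Agent.W346.LP.EX

/-!
Lemma job PN-K3 (project PN of helper295).  Adapted from `Pool/Agent/W346/LP/EX.lean`.
-/

set_option autoImplicit false

namespace Pool.Agent.Q130.PN

open MeasureTheory ProbabilityTheory Pool.Agent.W533.LP Pool.Agent.Q295.PN

theorem k3 : S_K3 := by
  rintro ⟨c, hc, h⟩
  refine ⟨c / 4, by positivity, ?_⟩
  intro Ω _ μ q a lam x I J W m n hq hq1 hqa haq hs hlam hmn hx hxl
  have hr0 : 0 < Real.sqrt q := Real.sqrt_pos.2 hq
  have hr1 : Real.sqrt q ≤ 1 / 4 := by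
    rw [Real.sqrt_le_left (by norm_num)]
    norm_num
    exact hq1
  have hrr : Real.sqrt q * Real.sqrt q = q := Real.mul_self_sqrt hq.le
  have ha0 : 0 < a := by linarith
  have ha1 : a ≤ 1 / 2 := by linarith
  have hlt : q < a := by nlinarith
  have hb0 : 0 ≤ q / a := by positivity
  have hb2 : q / a ≤ 2 * Real.sqrt q := by
    rw [div_le_iff₀ ha0]
    nlinarith
  have hb1 : q / a ≤ 1 / 2 := by linarith
  have hp : IsProbabilityMeasure μ := (hs : GeoFam μ _ _).prob
  have g1 : GeoFam μ (fun _ : Fin m => a) (fun i : Fin m => I i) :=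
    Pool.Agent.W346.LP.geo_sub (h := (hs : GeoFam μ _ _)) (fun i : Fin m => Sum.inl (i : ℕ)) (by
      intro i j hij
      exact Fin.ext (Sum.inl_injective hij))
  have g2 : GeoFam μ (fun _ : Fin n => q / a) (fun j : Fin n => Einc I J W m j) :=
    Pool.Agent.W346.LP.geo_sub (h := lBurke μ q a I J W _ _ hq hlt (by linarith) hs m n)
      (fun j : Fin n => Sum.inr (Sum.inl j)) (by
      intro i j hij
      exact Sum.inl_injective (Sum.inr_injective hij))
  have hm0 : (0 : ℝ) ≤ m := Nat.cast_nonneg m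
  have hn0 : (0 : ℝ) ≤ n := Nat.cast_nonneg n
  have hma : m * a ≤ lam := by
    have : (m : ℝ) * a ≤ m * (2 * Real.sqrt q) := mul_le_mul_of_nonneg_left haq hm0
    nlinarith [mul_nonneg hn0 hr0.le]
  have hnb : n * (q / a) ≤ lam := by
    have : (n : ℝ) * (q / a) ≤ n * (2 * Real.sqrt q) := mul_le_mul_of_nonneg_left hb2 hn0
    nlinarith [mul_nonneg hm0 hr0.le]
  obtain ⟨u1, u2⟩ := h μ a lam (x / 2) m (fun i => I i) ha0.le ha1 hlam hma (by linarith)
    (by linarith) g1
  obtain ⟨w1, w2⟩ := h μ (q / a) lam (x / 2) n (fun j => Einc I J W m j) hb0 hb1 hlam hnb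
    (by linarith) (by linarith) g2
  have he : -c * (x / 2) ^ 2 / lam = -(c / 4) * x ^ 2 / lam := by ring
  rw [he] at u1 u2 w1 w2
  have hsplit : ∀ ω, (Gr I J W m n ω : ℝ) =
      ∑ i : Fin m, (I i ω : ℝ) + ∑ j : Fin n, (Einc I J W m j ω : ℝ) := by
    intro ω
    rw [Pool.Agent.W346.LP.Gr_split lMeas]
    push_cast
    rfl
  unfold MM
  constructor
  · calc μ.real {ω | m * mean a + n * mean (q / a) + x ≤ (Gr I J W m n ω : ℝ)}
        ≤ μ.real ({ω | m * mean a + x / 2 ≤ ∑ i : Fin m, (I i ω : ℝ)} ∪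
          {ω | n * mean (q / a) + x / 2 ≤ ∑ j : Fin n, (Einc I J W m j ω : ℝ)}) := by
          apply measureReal_mono _ (measure_ne_top μ _)
          intro ω hω
          simp only [Set.mem_setOf_eq, Set.mem_union] at hω ⊢
          rw [hsplit] at hω
          by_contra hcon
          push Not at hcon
          linarith [hcon.1, hcon.2]
      _ ≤ _ := measureReal_union_le _ _
      _ ≤ 2 * Real.exp (-(c / 4) * x ^ 2 / lam) := by linarith
  · calc μ.real {ω | (Gr I J W m n ω : ℝ) ≤ m * mean a + n * mean (q / a) - x}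
        ≤ μ.real ({ω | ∑ i : Fin m, (I i ω : ℝ) ≤ m * mean a - x / 2} ∪
          {ω | ∑ j : Fin n, (Einc I J W m j ω : ℝ) ≤ n * mean (q / a) - x / 2}) := by
          apply measureReal_mono _ (measure_ne_top μ _)
          intro ω hω
          simp only [Set.mem_setOf_eq, Set.mem_union] at hω ⊢
          rw [hsplit] at hω
          by_contra hcon
          push Not at hcon
          linarith [hcon.1, hcon.2]
      _ ≤ _ := measureReal_union_le _ _
      _ ≤ 2 * Real.exp (-(c / 4) * x ^ 2 / lam) := by linarith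

end Pool.Agent.Q130.PN
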