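import Pool.Agent.Q295.PN.StmK
import Pool.Agent.W346.LP.SW

/-!
Lemma job PN-K7 (project PN of helper295).  Adapted from `Pool/Agent/W346/LP/SW.lean`.
-/

set_option autoImplicit false

namespace Pool.Agent.Q130.PN.K7

open MeasureTheory ProbabilityTheory Pool.Agent.W533.LP Pool.Agent.Q295.PN
open Pool.Agent.W346.LP

/-- conclusion of K6 -/
def K6c (C ν₁ : ℝ) : Prop := ∀ {Ω : Type} [MeasurableSpace Ω] (μ : Measure Ω) (q a : ℝ)
  (I J : ℕ → Ω → ℕ) (W : ℕ → ℕ → Ω → ℕ) (m n : ℕ), 0 < q → q ≤ 1 / 16 → ν₁ ≤ n * Real.sqrt q →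
  |a - Real.sqrt q| ≤ Real.sqrt q * (n * Real.sqrt q) ^ (-(3 / 10 : ℝ)) →
  |(m : ℝ) - n| * Real.sqrt q ≤ (n * Real.sqrt q) ^ (7 / 10 : ℝ) → Sys0 μ q a I J W →
  variance (fun ω => (Gr I J W m n ω : ℝ)) μ ≤ C * (n * Real.sqrt q) ^ (755 / 1000 : ℝ)

theorem partA (hKM : S_KM) (C ν₁ : ℝ) (hC : 1 ≤ C) (h6 : K6c C ν₁) (ε : ℝ) (hε : 0 < ε) :
    ∃ ν₀ : ℝ, 4096 ≤ ν₀ ∧ ∀ {Ω : Type} [MeasurableSpace Ω] (μ : Measure Ω) (q θ : ℝ)
      (I J : ℕ → Ω → ℕ) (W : ℕ → ℕ → Ω → ℕ) (m n : ℕ), 0 < q → q ≤ 1 / 16 →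
      ν₀ ≤ n * Real.sqrt q →
      (n * Real.sqrt q) ^ (-(308 / 1000 : ℝ)) ≤ θ → θ ≤ (n * Real.sqrt q) ^ (-(301 / 1000 : ℝ)) →
      16 * |(m : ℝ) - n| ≤ n * θ → Sys0 μ q (Real.sqrt q * (1 + θ)) I J W →
      μ.real {ω | Gr I zr W m n ω < Gr zr J W m n ω} ≤ ε := by
  have hlim := (tendsto_rpow_neg_atTop (y := (13 / 1000 : ℝ)) (by norm_num)).eventually
    (gt_mem_nhds (show (0 : ℝ) < ε / (64 * C) by positivity))
  obtain ⟨ν₂, hν₂⟩ := Filter.eventually_atTop.1 hlim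
  refine ⟨max (max ν₁ ν₂) 4096, le_max_right _ _, ?_⟩
  intro Ω _ μ q θ I J W m n hq hq1 hν hθ1 hθ2 hmn hs
  set r := Real.sqrt q with hr
  have hr0 : 0 < r := Real.sqrt_pos.2 hq
  have hr1 : r ≤ 1 / 4 := by
    rw [hr, Real.sqrt_le_left (by norm_num)]
    norm_num
    exact hq1
  have hrr : r * r = q := Real.mul_self_sqrt hq.le
  have hr2 : r ^ 2 = q := by rw [sq, hrr]
  set ν : ℝ := n * r with hνdef
  have b1 : ν₁ ≤ ν := ((le_max_left _ _).trans (le_max_left _ _)).trans hν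
  have b2 : ν₂ ≤ ν := ((le_max_right _ _).trans (le_max_left _ _)).trans hν
  have b3 : 4096 ≤ ν := (le_max_right _ _).trans hν
  have hν0 : 0 < ν := by linarith
  have hν1 : 1 ≤ ν := by linarith
  have hn0 : (0 : ℝ) ≤ n := Nat.cast_nonneg n
  have hθ0 : 0 < θ := lt_of_lt_of_le (Real.rpow_pos_of_pos hν0 _) hθ1
  have hθ8 : θ ≤ 1 / 8 := by
    refine hθ2.trans ?_
    calc ν ^ (-(301 / 1000 : ℝ)) ≤ ν ^ (-(1 / 4 : ℝ)) :=
          Real.rpow_le_rpow_of_exponent_le hν1 (by norm_num)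
      _ ≤ (4096 : ℝ) ^ (-(1 / 4 : ℝ)) :=
          Real.rpow_le_rpow_of_nonpos (by norm_num) b3 (by norm_num)
      _ = 1 / 8 := by
          rw [Real.rpow_neg (by norm_num)]
          have : (4096 : ℝ) = 8 ^ (4 : ℝ) := by norm_num
          rw [this, ← Real.rpow_mul (by norm_num)]
          norm_num
  -- the couple of systems
  have hqr : q < r * (1 + θ / 2) := by nlinarith
  obtain ⟨Ω', i1, μ', I₁, J₁, I₂, J₂, W', s1, s2, hle⟩ := ev_couple lCouple lLaw lMax lMono lMeas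
    μ q (r * (1 + θ / 2)) (r * (1 + θ)) I J W hq hqr (by nlinarith) (by nlinarith) hs m n
  refine hle.trans ?_
  have := (sys_meas s2).1
  obtain ⟨m1, E1, -, -⟩ := lVarId μ' q (r * (1 + θ / 2)) I₁ J₁ W' hq hqr (by nlinarith) s1 m n
  obtain ⟨m2, E2, -, -⟩ := lVarId μ' q (r * (1 + θ)) I₂ J₂ W' hq (by nlinarith) (by nlinarith)
    s2 m n
  have hpow3 : θ ≤ ν ^ (-(3 / 10 : ℝ)) :=
    hθ2.trans (Real.rpow_le_rpow_of_exponent_le hν1 (by norm_num))
  have hmnr : |(m : ℝ) - n| * r ≤ ν ^ (7 / 10 : ℝ) := by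
    have e1 : |(m : ℝ) - n| * r ≤ ν * θ := by
      have : |(m : ℝ) - n| ≤ n * θ := by linarith [abs_nonneg ((m : ℝ) - n)]
      calc |(m : ℝ) - n| * r ≤ (n * θ) * r := mul_le_mul_of_nonneg_right this hr0.le
        _ = ν * θ := by rw [hνdef]; ring
    refine e1.trans ?_
    calc ν * θ ≤ ν * ν ^ (-(3 / 10 : ℝ)) := mul_le_mul_of_nonneg_left hpow3 hν0.le
      _ = ν ^ (1 : ℝ) * ν ^ (-(3 / 10 : ℝ)) := by rw [Real.rpow_one]
      _ = ν ^ (7 / 10 : ℝ) := by rw [← Real.rpow_add hν0]; norm_num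
  have v1 := h6 μ' q (r * (1 + θ / 2)) I₁ J₁ W' m n hq hq1 b1 (by
    have e : r * (1 + θ / 2) - r = r * (θ / 2) := by ring
    rw [e, abs_of_pos (by positivity)]
    exact mul_le_mul_of_nonneg_left (by linarith) hr0.le) hmnr s1
  have v2 := h6 μ' q (r * (1 + θ)) I₂ J₂ W' m n hq hq1 b1 (by
    have e : r * (1 + θ) - r = r * θ := by ring
    rw [e, abs_of_pos (by positivity)]
    exact mul_le_mul_of_nonneg_left hpow3 hr0.le) hmnr s2
  have hgap := hKM.1 r θ m n hr0 hr1 hθ0 hθ8 hmn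
  unfold MM at hgap
  rw [hr2, ← E1, ← E2] at hgap
  set X : Ω' → ℝ := fun ω => (Gr I₂ J₂ W' m n ω : ℝ) with hX
  set Y : Ω' → ℝ := fun ω => (Gr I₁ J₁ W' m n ω : ℝ) with hY
  have hX2 : MemLp X 2 μ' := m2.mono_exponent (by norm_num)
  have hY2 : MemLp Y 2 μ' := m1.mono_exponent (by norm_num)
  set V : ℝ := C * ν ^ (755 / 1000 : ℝ) with hV
  have hvar : variance (X - Y) μ' ≤ 4 * V := by
    have hs := variance_sub hX2 hY2
    have hadd := variance_add hX2 hY2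
    have hnn := variance_nonneg (X + Y) μ'
    linarith
  have hEm : ∫ ω, (X - Y) ω ∂μ' = (∫ ω, X ω ∂μ') - ∫ ω, Y ω ∂μ' :=
    integral_sub (hX2.integrable (by norm_num)) (hY2.integrable (by norm_num))
  set c := ν * θ ^ 2 / 4 with hc
  have hc0 : 0 < c := by positivity
  have hcheb := meas_ge_le_variance_div_sq (hX2.sub hY2) hc0
  have hsub : {ω | Gr I₂ J₂ W' m n ω ≤ Gr I₁ J₁ W' m n ω} ⊆
      {ω | c ≤ |(X - Y) ω - ∫ ω, (X - Y) ω ∂μ'|} := by
    intro ω hω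
    have hω' : X ω ≤ Y ω := Nat.cast_le.2 hω
    show c ≤ |X ω - Y ω - ∫ ω, (X - Y) ω ∂μ'|
    rw [hEm, abs_sub_comm]
    refine le_trans ?_ (le_abs_self _)
    linarith
  have hfin : μ'.real {ω | c ≤ |(X - Y) ω - ∫ ω, (X - Y) ω ∂μ'|} ≤
      variance (X - Y) μ' / c ^ 2 := by
    unfold Measure.real
    refine (ENNReal.toReal_mono ENNReal.ofReal_ne_top hcheb).trans ?_
    rw [ENNReal.toReal_ofReal (div_nonneg (variance_nonneg _ _) (by positivity))]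
  have hθ4 : ν ^ (-(1232 / 1000 : ℝ)) ≤ θ ^ 4 := by
    calc ν ^ (-(1232 / 1000 : ℝ)) = (ν ^ (-(308 / 1000 : ℝ))) ^ (4 : ℕ) := by
          rw [← Real.rpow_natCast, ← Real.rpow_mul hν0.le]
          norm_num
      _ ≤ θ ^ 4 := pow_le_pow_left₀ (Real.rpow_pos_of_pos hν0 _).le hθ1 4
  calc μ'.real {ω | Gr I₂ J₂ W' m n ω ≤ Gr I₁ J₁ W' m n ω}
      ≤ μ'.real {ω | c ≤ |(X - Y) ω - ∫ ω, (X - Y) ω ∂μ'|} :=
        measureReal_mono hsub (measure_ne_top _ _)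
    _ ≤ variance (X - Y) μ' / c ^ 2 := hfin
    _ ≤ 4 * V / c ^ 2 := by gcongr
    _ = 64 * C * (ν ^ (755 / 1000 : ℝ) / (ν ^ 2 * θ ^ 4)) := by
      rw [hc, hV]
      field_simp
      ring
    _ ≤ 64 * C * (ν ^ (755 / 1000 : ℝ) / (ν ^ 2 * ν ^ (-(1232 / 1000 : ℝ)))) := by
      have : 0 < ν ^ (-(1232 / 1000 : ℝ)) := Real.rpow_pos_of_pos hν0 _
      have h7 : 0 < ν ^ (755 / 1000 : ℝ) := Real.rpow_pos_of_pos hν0 _
      gcongr
    _ = 64 * C * ν ^ (-(13 / 1000 : ℝ)) := by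
      congr 1
      rw [← Real.rpow_natCast, ← Real.rpow_add hν0, ← Real.rpow_sub hν0]
      norm_num
    _ ≤ 64 * C * (ε / (64 * C)) := mul_le_mul_of_nonneg_left (hν₂ ν b2).le (by positivity)
    _ = ε := by field_simp

theorem k7 : S_K7 := by
  intro h2 h3 hKM h5 h6' ε hε
  obtain ⟨C, ν₁, hC, -, h6⟩ := h6' h2 h3 hKM h5
  obtain ⟨ν₀, hν₀, hA⟩ := partA hKM C ν₁ hC h6 ε hε
  refine ⟨max (2 * ν₀) ((2 : ℝ) ^ (1000 : ℝ)), ?_, ?_⟩
  · exact le_trans (by linarith) (le_max_left _ _)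
  intro Ω _ μ q θ I J W m n hq hq1 hν hθ1 hθ2 hmn
  set r := Real.sqrt q with hr
  have hr0 : 0 < r := Real.sqrt_pos.2 hq
  have hr1 : r ≤ 1 / 4 := by
    rw [hr, Real.sqrt_le_left (by norm_num)]
    norm_num
    exact hq1
  have hrr : r * r = q := Real.mul_self_sqrt hq.le
  set ν : ℝ := n * r with hνdef
  have b1 : 2 * ν₀ ≤ ν := (le_max_left _ _).trans hν
  have b2 : (2 : ℝ) ^ (1000 : ℝ) ≤ ν := (le_max_right _ _).trans hν
  have hsm : (2 : ℝ) ≤ ν ^ (1 / 1000 : ℝ) := by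
    calc (2 : ℝ) = ((2 : ℝ) ^ (1000 : ℝ)) ^ (1 / 1000 : ℝ) := by
          rw [← Real.rpow_mul (by norm_num)]
          norm_num
      _ ≤ ν ^ (1 / 1000 : ℝ) := Real.rpow_le_rpow (by positivity) b2 (by norm_num)
  clear b2 hν
  have hν1 : 1 ≤ ν := by linarith
  have hν0 : 0 < ν := by linarith
  have hn0 : (0 : ℝ) ≤ n := Nat.cast_nonneg n
  have hn1 : (0 : ℝ) < n := by
    rcases hn0.lt_or_eq with h | h
    · exact h
    · rw [hνdef, ← h, zero_mul] at hν0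
      exact absurd hν0 (lt_irrefl _)
  have hθ0 : 0 < θ := lt_of_lt_of_le (Real.rpow_pos_of_pos hν0 _) hθ1
  have hθ1' : θ ≤ 1 := by
    refine hθ2.trans ?_
    exact Real.rpow_le_one_of_one_le_of_nonpos hν1 (by norm_num)
  constructor
  · intro hs
    refine hA μ q θ I J W m n hq hq1 (by linarith) ?_ ?_ ?_ hs
    · exact le_trans (Real.rpow_le_rpow_of_exponent_le hν1 (by norm_num)) hθ1
    · exact hθ2.trans (Real.rpow_le_rpow_of_exponent_le hν1 (by norm_num))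
    · linarith [abs_nonneg ((m : ℝ) - n)]
  · intro hs
    have hs' : Sys0 μ q (r * (1 + θ)) J I (fun i j => W j i) := by
      have e : q / (r / (1 + θ)) = r * (1 + θ) := by
        rw [← hrr]
        field_simp
      rw [← e]
      refine (lOps μ q).2.1 (r / (1 + θ)) I J W hq ?_ ?_ hs
      · rw [lt_div_iff₀ (by positivity), ← hrr]
        nlinarith
      · rw [div_lt_one (by positivity)]
        linarith
    have hset : {ω | Gr zr J W m n ω < Gr I zr W m n ω} =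
        {ω | Gr J zr (fun i j => W j i) n m ω < Gr zr I (fun i j => W j i) n m ω} := by
      ext ω
      have a1 : Gr zr J W m n ω = Gr J zr (fun i j => W j i) n m ω := lTransp _ _ _ _ _
      have a2 : Gr I zr W m n ω = Gr zr I (fun i j => W j i) n m ω := lTransp _ _ _ _ _
      show Gr zr J W m n ω < Gr I zr W m n ω ↔
        Gr J zr (fun i j => W j i) n m ω < Gr zr I (fun i j => W j i) n m ω
      rw [a1, a2]
    rw [hset]
    have hab := abs_le.1 (show |(m : ℝ) - n| ≤ n * θ / 20 by linarith)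
    have hnθ : (n : ℝ) * θ ≤ n := by nlinarith
    have hm1 : (n : ℝ) / 2 ≤ m := by linarith [hab.1]
    have hm2 : (m : ℝ) ≤ 2 * n := by linarith [hab.2]
    have hν' : ν / 2 ≤ m * r := by
      rw [hνdef]
      nlinarith
    have hν'' : m * r ≤ 2 * ν := by
      rw [hνdef]
      nlinarith
    have hν'0 : 0 < m * r := by linarith
    refine hA μ q θ J I (fun i j => W j i) n m hq hq1 (by linarith) ?_ ?_ ?_ hs'
    · refine le_trans ?_ hθ1
      calc (m * r) ^ (-(308 / 1000 : ℝ)) ≤ (ν / 2) ^ (-(308 / 1000 : ℝ)) :=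
            Real.rpow_le_rpow_of_nonpos (by positivity) hν' (by norm_num)
        _ = ν ^ (-(308 / 1000 : ℝ)) * (2 : ℝ) ^ (308 / 1000 : ℝ) := by
            rw [Real.div_rpow hν0.le (by norm_num), Real.rpow_neg (by norm_num : (0 : ℝ) ≤ 2),
              div_inv_eq_mul]
        _ ≤ ν ^ (-(308 / 1000 : ℝ)) * 2 := by
            have : (2 : ℝ) ^ (308 / 1000 : ℝ) ≤ 2 ^ (1 : ℝ) :=
              Real.rpow_le_rpow_of_exponent_le (by norm_num) (by norm_num)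
            rw [Real.rpow_one] at this
            exact mul_le_mul_of_nonneg_left this (by positivity)
        _ ≤ ν ^ (-(308 / 1000 : ℝ)) * ν ^ (1 / 1000 : ℝ) :=
            mul_le_mul_of_nonneg_left hsm (by positivity)
        _ = ν ^ (-(307 / 1000 : ℝ)) := by
            rw [← Real.rpow_add hν0]
            norm_num
    · refine hθ2.trans ?_
      calc ν ^ (-(302 / 1000 : ℝ)) = ν ^ (-(301 / 1000 : ℝ)) * ν ^ (-(1 / 1000 : ℝ)) := by
            rw [← Real.rpow_add hν0]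
            norm_num
        _ ≤ ν ^ (-(301 / 1000 : ℝ)) * (2 : ℝ) ^ (-(301 / 1000 : ℝ)) := by
            have e1 : ν ^ (-(1 / 1000 : ℝ)) ≤ (2 : ℝ)⁻¹ := by
              rw [Real.rpow_neg hν0.le]
              exact inv_anti₀ (by norm_num) hsm
            have e2 : (2 : ℝ)⁻¹ ≤ (2 : ℝ) ^ (-(301 / 1000 : ℝ)) := by
              rw [← Real.rpow_neg_one]
              exact Real.rpow_le_rpow_of_exponent_le (by norm_num) (by norm_num)
            exact mul_le_mul_of_nonneg_left (e1.trans e2) (by positivity)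
        _ = (2 * ν) ^ (-(301 / 1000 : ℝ)) := by
            rw [Real.mul_rpow (by norm_num) hν0.le, mul_comm]
        _ ≤ (m * r) ^ (-(301 / 1000 : ℝ)) :=
            Real.rpow_le_rpow_of_nonpos hν'0 hν'' (by norm_num)
    · rw [abs_sub_comm]
      have h20 : 20 * |(m : ℝ) - n| ≤ n * θ := hmn
      have : (n : ℝ) * θ - m * θ ≤ n * θ / 20 := by
        have : ((n : ℝ) - m) * θ ≤ n * θ / 20 * 1 :=
          mul_le_mul (by linarith [hab.1]) hθ1' hθ0.le (by positivity)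
        linarith
      linarith

end Pool.Agent.Q130.PN.K7
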