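import Pool.Agent.Q295.PN.StmK

/-!
Lemma job PN-KD (project PN of helper295): Burke property along a down-right path.
`stateS` is adapted from `Pool/Agent/W634/LP/Burke.lean`.
-/

set_option autoImplicit false

namespace Pool.Agent.Q130.PN.KD

open MeasureTheory ProbabilityTheory Pool.Agent.W533.LP Pool.Agent.Q295.PN Pool.Agent.W634.LP

theorem stateS (hB : PBlock) {Ω κ : Type} [MeasurableSpace Ω] [Countable κ] (μ : Measure Ω)
    (q a : ℝ) (I J : ℕ → Ω → ℕ) (W : ℕ → ℕ → Ω → ℕ) (c : κ → ℝ) (X : κ → Ω → ℕ) (ha : 0 < a)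
    (h : Sys μ q a I J W c X) (m : ℕ) : ∀ j i : ℕ, i ≤ m →
    ∃ Z : ℕ → ℕ → Ω → ℕ, GeoFam μ (par q a (q / a) c)
      (fam (Hst I J W m j i) (Vst I J W m j i) Z X) ∧
      ∀ i' j', (j < j' ∨ (j' = j ∧ i ≤ i') ∨ m ≤ i') → Z i' j' = W i' j' := by
  classical
  -- one step inside the row
  have hstep : ∀ j i : ℕ, i < m →
      (∃ Z : ℕ → ℕ → Ω → ℕ, GeoFam μ (par q a (q / a) c)
        (fam (Hst I J W m j i) (Vst I J W m j i) Z X) ∧
        ∀ i' j', (j < j' ∨ (j' = j ∧ i ≤ i') ∨ m ≤ i') → Z i' j' = W i' j') →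
      (∃ Z : ℕ → ℕ → Ω → ℕ, GeoFam μ (par q a (q / a) c)
        (fam (Hst I J W m j (i + 1)) (Vst I J W m j (i + 1)) Z X) ∧
        ∀ i' j', (j < j' ∨ (j' = j ∧ i + 1 ≤ i') ∨ m ≤ i') → Z i' j' = W i' j') := by
    rintro j i hi ⟨Z, hZ, hZW⟩
    have hcore := Pool.Agent.W634.LP.core hB μ (par q a (q / a) c)
      (fam (Hst I J W m j i) (Vst I J W m j i) Z X) (Sum.inl i) (Sum.inr (Sum.inl j))
      (Sum.inr (Sum.inr (Sum.inl (i, j)))) (by simp) (by simp) (by simp)
      (by simp only [par]; field_simp) hZ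
    have hH : ∀ ω, Hst I J W m j i i ω = Ninc I J W j i ω := by
      intro ω; simp [Hst, hi]
    have hV : ∀ ω, Vst I J W m j i j ω = Einc I J W i j ω := by
      intro ω; simp [Vst]
    have hW : Z i j = W i j := hZW i j (Or.inr (Or.inl ⟨rfl, le_rfl⟩))
    refine ⟨fun i' j' ω => if (i', j') = (i, j) then min (Ninc I J W j i ω) (Einc I J W i j ω)
      else Z i' j' ω, ?_, ?_⟩
    · refine GeoFam.congr hcore (fun _ => rfl) ?_
      rintro (i' | j' | ⟨i', j'⟩ | k) ω
      · by_cases hi' : i' = i
        · subst hi'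
          simp only [if_true, fam]
          rw [hW, hH, hV]
          simp only [Hst, Nat.lt_succ_self, if_true]
          exact (cell I J W i' j ω).1.symm
        · have n1 : ¬ ((Sum.inl i' : ℕ ⊕ ℕ ⊕ (ℕ × ℕ) ⊕ κ) = Sum.inl i) := by
            simpa using hi'
          simp only [n1, if_false, fam, reduceCtorEq]
          simp only [Hst]
          by_cases h1 : i' < i
          · have h2 : i' < i + 1 := by omega
            simp [h1, h2]
          · have h2 : ¬ i' < i + 1 := by omega
            simp [h1, h2]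
      · by_cases hj' : j' = j
        · subst hj'
          simp only [if_true, fam, reduceCtorEq, if_false]
          rw [hW, hH, hV]
          simp only [Vst, lt_irrefl, if_true, if_false]
          exact (cell I J W i j' ω).2.symm
        · have n1 : ¬ ((Sum.inr (Sum.inl j') : ℕ ⊕ ℕ ⊕ (ℕ × ℕ) ⊕ κ) = Sum.inr (Sum.inl j)) := by
            simpa using hj'
          have n2 : ¬ ((Sum.inr (Sum.inl j') : ℕ ⊕ ℕ ⊕ (ℕ × ℕ) ⊕ κ)
            = Sum.inr (Sum.inr (Sum.inl (i, j)))) := by simp
          simp only [n1, n2, if_false, fam, reduceCtorEq]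
          simp only [Vst, hj', if_false]
      · by_cases hij : (i', j') = (i, j)
        · obtain ⟨rfl, rfl⟩ := Prod.mk.inj hij
          have n2 : ¬ ((Sum.inr (Sum.inr (Sum.inl (i', j'))) : ℕ ⊕ ℕ ⊕ (ℕ × ℕ) ⊕ κ)
              = Sum.inr (Sum.inl j')) := by simp
          simp only [n2, if_true, fam, reduceCtorEq, if_false]
          rw [hH, hV]
        · have n1 : ¬ ((Sum.inr (Sum.inr (Sum.inl (i', j'))) : ℕ ⊕ ℕ ⊕ (ℕ × ℕ) ⊕ κ)
              = Sum.inr (Sum.inr (Sum.inl (i, j)))) := by
            simpa using hij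
          have n2 : ¬ ((Sum.inr (Sum.inr (Sum.inl (i', j'))) : ℕ ⊕ ℕ ⊕ (ℕ × ℕ) ⊕ κ)
              = Sum.inr (Sum.inl j)) := by simp
          simp only [n1, n2, if_false, fam, reduceCtorEq, hij]
      · have n1 : ¬ ((Sum.inr (Sum.inr (Sum.inr k)) : ℕ ⊕ ℕ ⊕ (ℕ × ℕ) ⊕ κ)
              = Sum.inr (Sum.inr (Sum.inl (i, j)))) := by simp
        have n2 : ¬ ((Sum.inr (Sum.inr (Sum.inr k)) : ℕ ⊕ ℕ ⊕ (ℕ × ℕ) ⊕ κ)
              = Sum.inr (Sum.inl j)) := by simp
        simp only [n1, n2, fam, reduceCtorEq, if_false]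
    · intro i' j' hij
      have n1 : ¬ ((i', j') = (i, j)) := by
        intro he
        obtain ⟨rfl, rfl⟩ := Prod.mk.inj he
        omega
      funext ω
      simp only [n1, if_false]
      rw [hZW i' j' (by omega)]
  intro j
  induction j with
  | zero =>
    intro i
    induction i with
    | zero =>
      intro _
      refine ⟨W, ?_, fun _ _ _ => rfl⟩
      refine GeoFam.congr h (fun _ => rfl) ?_
      rintro (i' | j' | ⟨i', j'⟩ | k) ω
      · simp only [fam, Hst, Nat.not_lt_zero, if_false]
        rw [Ninc_zero]; simp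
      · simp only [fam, Vst, Nat.not_lt_zero, if_false]
        rw [Einc_zero]
        by_cases hj : j' = 0
        · simp [hj]
        · simp [hj]
      · rfl
      · rfl
    | succ i ih =>
      intro hi
      exact hstep 0 i (by omega) (ih (by omega))
  | succ j ihj =>
    intro i
    induction i with
    | zero =>
      intro _
      obtain ⟨Z, hZ, hZW⟩ := ihj m le_rfl
      refine ⟨Z, ?_, ?_⟩
      · refine GeoFam.congr hZ (fun _ => rfl) ?_
        rintro (i' | j' | ⟨i', j'⟩ | k) ω
        · simp only [fam, Hst, Nat.not_lt_zero, if_false]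
          by_cases h1 : i' < m
          · simp [h1]
          · simp [h1]
        · simp only [fam, Vst]
          by_cases h1 : j' < j
          · have h2 : j' < j + 1 := by omega
            simp [h1, h2]
          · by_cases h2 : j' = j
            · subst h2; simp
            · have h3 : ¬ j' < j + 1 := by omega
              by_cases h4 : j' = j + 1
              · subst h4
                simp only [h1, h2, if_false, lt_irrefl, if_true]
                rw [Einc_zero]
              · simp [h1, h2, h3, h4]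
        · rfl
        · rfl
      · intro i' j' hij
        exact hZW i' j' (by omega)
    | succ i ih =>
      intro hi
      exact hstep (j + 1) i (by omega) (ih (by omega))


/-- the indices of the second system -/
def idx (m n t : ℕ) : ℕ ⊕ ℕ ⊕ (ℕ × ℕ) ⊕ Fin t → ℕ ⊕ ℕ ⊕ (ℕ × ℕ) ⊕ Empty
  | Sum.inl i => Sum.inl (m + i)
  | Sum.inr (Sum.inl j) => Sum.inr (Sum.inl (if j < n then j else j + t))
  | Sum.inr (Sum.inr (Sum.inl v)) => Sum.inr (Sum.inr (Sum.inl (m + v.1, v.2)))
  | Sum.inr (Sum.inr (Sum.inr k)) => Sum.inr (Sum.inl (n + k))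

theorem idx_inj (m n t : ℕ) : Function.Injective (idx m n t) := by
  rintro (x | x | x | x) (y | y | y | y) h
  · simp only [idx, Sum.inl.injEq] at h
    rw [show x = y by omega]
  · simp [idx] at h
  · simp [idx] at h
  · simp [idx] at h
  · simp [idx] at h
  · simp only [idx, Sum.inr.injEq, Sum.inl.injEq] at h
    have : x = y := by split_ifs at h <;> omega
    rw [this]
  · simp [idx] at h
  · simp only [idx, Sum.inr.injEq, Sum.inl.injEq] at h
    have := y.2
    split_ifs at h <;> omega
  · simp [idx] at h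
  · simp [idx] at h
  · simp only [idx, Sum.inr.injEq, Sum.inl.injEq, Prod.mk.injEq] at h
    have : x = y := Prod.ext (by omega) h.2
    rw [this]
  · simp [idx] at h
  · simp [idx] at h
  · simp only [idx, Sum.inr.injEq, Sum.inl.injEq] at h
    have := x.2
    split_ifs at h <;> omega
  · simp [idx] at h
  · simp only [idx, Sum.inr.injEq, Sum.inl.injEq] at h
    have : x = y := Fin.ext (by omega)
    rw [this]

/-- vertical boundary of the second system -/
def J2 {Ω : Type} (I J : ℕ → Ω → ℕ) (W : ℕ → ℕ → Ω → ℕ) (m n t : ℕ) : ℕ → Ω → ℕ :=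
  fun j ω => if j < n then Einc I J W m j ω else J (j + t) ω

theorem shiftG {Ω : Type} (I J : ℕ → Ω → ℕ) (W : ℕ → ℕ → Ω → ℕ) (m n t : ℕ) (ω : Ω) :
    ∀ i j : ℕ, j ≤ n → Gr I J W (m + i) j ω =
      Gr I J W m 0 ω + Gr (fun i => I (m + i)) (J2 I J W m n t) (fun i j => W (m + i) j) i j ω := by
  intro i
  induction i with
  | zero =>
    intro j
    induction j with
    | zero =>
      intro _
      simp [Gr, G]
    | succ j ih =>
      intro hj
      have h1 := ih (by omega)
      have h2 : Gr (fun i => I (m + i)) (J2 I J W m n t) (fun i j => W (m + i) j) 0 (j + 1) ω =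
          Gr (fun i => I (m + i)) (J2 I J W m n t) (fun i j => W (m + i) j) 0 j ω +
            J2 I J W m n t j ω := by
        rw [Gr, G]; rfl
      have h3 : J2 I J W m n t j ω = Einc I J W m j ω := by
        simp [J2, show j < n by omega]
      have h4 : Gr I J W m j ω ≤ Gr I J W m (j + 1) ω := (G_mono _ _ _ _ _).2
      rw [h2, h3, Einc]
      simp only [Nat.add_zero] at h1 ⊢
      omega
  | succ i ih =>
    intro j
    induction j with
    | zero =>
      intro _
      have h1 := ih 0 (by omega)
      have h2 : Gr (fun i => I (m + i)) (J2 I J W m n t) (fun i j => W (m + i) j) (i + 1) 0 ω =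
          Gr (fun i => I (m + i)) (J2 I J W m n t) (fun i j => W (m + i) j) i 0 ω +
            I (m + i) ω := by
        rw [Gr, G]; rfl
      have h3 : Gr I J W (m + (i + 1)) 0 ω = Gr I J W (m + i) 0 ω + I (m + i) ω := by
        rw [show m + (i + 1) = (m + i) + 1 by omega, Gr, G]; rfl
      rw [h2, h3, h1]
      omega
    | succ j ihj =>
      intro hj
      have h1 := ihj (by omega)
      have h2 := ih (j + 1) hj
      have h3 : Gr (fun i => I (m + i)) (J2 I J W m n t) (fun i j => W (m + i) j) (i + 1) (j + 1) ω =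
          max (Gr (fun i => I (m + i)) (J2 I J W m n t) (fun i j => W (m + i) j) i (j + 1) ω)
            (Gr (fun i => I (m + i)) (J2 I J W m n t) (fun i j => W (m + i) j) (i + 1) j ω) +
            W (m + i) j ω := by
        rw [Gr, G]; rfl
      have h4 : Gr I J W (m + (i + 1)) (j + 1) ω =
          max (Gr I J W (m + i) (j + 1) ω) (Gr I J W (m + (i + 1)) j ω) + W (m + i) j ω := by
        rw [show m + (i + 1) = (m + i) + 1 by omega, Gr, G]; rfl
      rw [h3, h4, h1, h2]
      omega

theorem kd : S_KD := by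
  intro Ω _ μ q a I J W m n s t hq hqa ha1 h
  have ha : 0 < a := hq.trans hqa
  obtain ⟨Z, hZ, hZW⟩ := stateS lBlock μ q a I J W _ _ ha h m (n + t) 0 (Nat.zero_le _)
  have h2 : Sys μ q a (fun i => I (m + i)) (J2 I J W m n t) (fun i j => W (m + i) j)
      (fun _ : Fin t => q / a) (fun j : Fin t => Einc I J W m (n + j)) := by
    refine GeoFam.congr (GeoFam.precomp hZ (idx m n t) (idx_inj m n t)) ?_ ?_
    · rintro (x | x | x | x) <;> rfl
    · rintro (x | x | x | x) ω
      · simp [idx, fam, Hst]
      · simp only [idx, fam, Vst, J2]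
        by_cases hx : x < n
        · simp [hx, show x < n + t by omega]
        · simp only [hx, if_false]
          have h3 : ¬ (x + t < n + t) := by omega
          simp only [h3, if_false]
          by_cases h4 : x + t = n + t
          · rw [if_pos h4, ← h4, Einc_zero]
          · rw [if_neg h4]
      · simp only [idx, fam]
        rw [hZW (m + x.1) x.2 (Or.inr (Or.inr (Nat.le_add_right _ _)))]
      · simp only [idx, fam, Vst]
        have := x.2
        simp [show n + (x : ℕ) < n + t by omega]
  have h3 := lBurke μ q a _ _ _ _ _ hq hqa ha1 h2 s n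
  let g : Fin s ⊕ Fin t → Fin s ⊕ Fin n ⊕ Fin t :=
    Sum.elim (fun i => Sum.inl i) (fun j => Sum.inr (Sum.inr j))
  have hg : Function.Injective g := by
    rintro (x | x) (y | y) hxy
    · have : x = y := by simpa [g] using hxy
      rw [this]
    · simp [g] at hxy
    · simp [g] at hxy
    · have : x = y := by simpa [g] using hxy
      rw [this]
  refine GeoFam.congr (GeoFam.precomp h3 g hg) ?_ ?_
  · rintro (x | x) <;> rfl
  · rintro (x | x) ω
    · simp only [g, Sum.elim_inl]
      have e1 := shiftG I J W m n t ω x n le_rfl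
      have e2 := shiftG I J W m n t ω (x + 1) n le_rfl
      rw [← Nat.add_assoc] at e2
      rw [Ninc, Ninc, e1, e2]
      omega
    · rfl

end Pool.Agent.Q130.PN.KD
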